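import Pool.Agent.TWB.Fin
import Pool.Agent.TWA.Cor

/-!
# TWB: special cases of Theorem W2

* sums of `k` products of sums of univariate polynomials (`Σ^[k] Π Σ ∧`), any degree;
* sums of `k` products of polynomials of constant flattening rank, any degree;
* the leaves of Theorem W.
-/

set_option autoImplicit false

namespace Pool.Agent.TWB

open MvPolynomial
open Pool.Agent.AOI (Cut Cuts)
open Pool.Agent.Helper8.Occ

variable {n : ℕ}

theorem leaf_of_cuts {k w : ℕ} {g : MvPolynomial (Fin n) ℚ} (h : Cuts w g) : Leaf n k w w g :=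
  ⟨h, fun S _ => h S⟩

/-- A sum of univariate polynomials has flattening ranks at most `2`. -/
theorem cuts_sum_univ (p : Fin n → MvPolynomial (Fin n) ℚ) (hp : ∀ v, (p v).vars ⊆ {v}) :
    Cuts 2 (∑ v, p v) := by
  classical
  intro S
  refine ⟨![∑ v ∈ S, p v, 1], ![1, ∑ v ∈ Sᶜ, p v], fun l => ?_, fun l => ?_, ?_⟩
  · fin_cases l
    · refine (vars_sum_subset S p).trans (Finset.biUnion_subset.2 fun v hv => (hp v).trans ?_)
      exact Finset.singleton_subset_iff.2 hv
    · show (1 : MvPolynomial (Fin n) ℚ).vars ⊆ S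
      rw [vars_one]
      exact Finset.empty_subset _
  · fin_cases l
    · show (1 : MvPolynomial (Fin n) ℚ).vars ⊆ Sᶜ
      rw [vars_one]
      exact Finset.empty_subset _
    · refine (vars_sum_subset Sᶜ p).trans (Finset.biUnion_subset.2 fun v hv => (hp v).trans ?_)
      exact Finset.singleton_subset_iff.2 hv
  · rw [Fin.sum_univ_two]
    show _ = (∑ v ∈ S, p v) * 1 + 1 * ∑ v ∈ Sᶜ, p v
    rw [mul_one, one_mul, Finset.sum_add_sum_compl]

/-- `Σ^[k] Π Σ ∧`: sums of `k` products of sums of univariate polynomials, of any degree, are hit by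
`hit n L (k^2+4k+3..) R`: `2 + 2 ((k+1)(k+3)+k)` parameters. -/
theorem hit_sum_prod_sum_univ {k m R : ℕ} (p : Fin k → Fin m → Fin n → MvPolynomial (Fin n) ℚ)
    (hp : ∀ i j v, (p i j v).vars ⊆ {v}) (h0 : ∑ i, ∏ j, ∑ v, p i j v ≠ 0)
    (hR : deg n 0 k 2 2 0 * (∑ i, ∏ j, ∑ v, p i j v).totalDegree ≤ R) :
    ∃ x ∈ hit n (lvl n 0 k 2 2 0) (seeds 0 k 2 0) R,
      eval (fun i => ((x i : ℤ) : ℚ)) (∑ i, ∏ j, ∑ v, p i j v) ≠ 0 := by
  classical
  refine hit_W2 (N := k) (m := m) (κ := 0) (Δ := 0) (fun i j => ∑ v, p i j v) (fun _ _ => 1)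
    (fun i j => .leaf (leaf_of_cuts (cuts_sum_univ _ (hp i j)))) (fun b _ => ?_) _ ?_ h0 _ dvd_rfl
    (Or.inl hR)
  · exact (Finset.card_le_univ b).trans (by simp)
  · refine Subalgebra.sum_mem _ fun i _ => Algebra.subset_adjoin ⟨i, ?_⟩
    simp

theorem seeds_eq (k : ℕ) : seeds 0 k 2 0 = (k + 1) * (k + 3) + k := by
  unfold seeds order mSeq tSeq
  ring

end Pool.Agent.TWB
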