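import Pool.Agent.Helper8.Occ.Defs
import Pool.Agent.Helper8.Occ.LeafDef
import Pool.Agent.FOR.Defs

/-!
Project TWB (MP_e2be99_lc, Theorem W2, helper7): polynomials in unboundedly many products, at most `k`
of them algebraically independent, of unboundedly many formulas of bounded depth and bounded
occurrence over leaves all of whose flattenings have rank at most `w` (read-once programs in any
order), of arbitrary degree.  Only the flattenings with respect to at most `k` variables need rank at
most a constant `P`.

`Cut`, `Cuts` are those of `Pool.Agent.AOI`, the curve `Ps` and the level `lev` those of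
`Pool.Agent.FOR`; `OccFormula`, `order`, `seeds` those of `Pool.Agent.Helper8.Occ`.
-/

set_option autoImplicit false

namespace Pool.Agent.TWB

open MvPolynomial
open Pool.Agent.AOI (Cut Cuts)
open Pool.Agent.FOR (Ps lev)
open Pool.Agent.Helper8.Occ (order)

/-- The leaves: all flattenings of `g` have rank at most `w`, the flattenings with respect to at most
`k` variables have rank at most `P`. -/
def Leaf (n k w P : ℕ) (g : MvPolynomial (Fin n) ℚ) : Prop :=
  Cuts w g ∧ ∀ S : Finset (Fin n), S.card ≤ k → Cut P S g

/-- `M! (w + 1) ^ M`, `M = order κ k P Δ`. -/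
def rk (κ k w P Δ : ℕ) : ℕ := (order κ k P Δ).factorial * (w + 1) ^ order κ k P Δ

/-- The level of the curve. -/
def lvl (n κ k w P Δ : ℕ) : ℕ := lev (max n (rk κ k w P Δ))

/-- Bound for the total degree of the coordinates of the generator. -/
def deg (n κ k w P Δ : ℕ) : ℕ := 2 ^ 3840 * (n + rk κ k w P Δ + 1) ^ 480 + n + 1

/-- Exponent in the bound for the coordinates of the points. -/
def bits (n κ k w P Δ : ℕ) : ℕ := 2 ^ 4000 * (n + rk κ k w P Δ + 1) ^ 500 + n + 1

/-- The generator: its coordinates are `Ps_i(t, e) + ∑_l z_l ∏_{j≠i} (u_l - j)`; `Ps` is the curve of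
`AnyOrderPolynomial` at the level `L`. -/
def gen {R : Type*} [CommRing R] (n L c : ℕ) (t e : R) (z u : Fin c → R) (i : Fin n) : R :=
  Ps L t e (i : ℕ) + ∑ l, z l * ∏ j ∈ Finset.univ.erase i, (u l - ((j : ℕ) : R))

/-- The coordinates of the generator as polynomials in the `2 + 2 c` parameters. -/
noncomputable def full (n L c : ℕ) (i : Fin n) : MvPolynomial (Fin 2 ⊕ (Fin c ⊕ Fin c)) ℚ :=
  gen n L c (X (Sum.inl 0)) (X (Sum.inl 1)) (fun l => X (Sum.inr (Sum.inl l)))
    (fun l => X (Sum.inr (Sum.inr l))) i

/-- All points of the generator with parameters in `{0, …, R}`. -/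
def hit (n L c R : ℕ) : Finset (Fin n → ℤ) :=
  ((Finset.range (R + 1) ×ˢ Finset.range (R + 1)) ×ˢ
    ((Fintype.piFinset fun _ : Fin c => Finset.range (R + 1)) ×ˢ
      (Fintype.piFinset fun _ : Fin c => Finset.range (R + 1)))).image
    fun a => gen n L c (a.1.1 : ℤ) (a.1.2 : ℤ) (fun l => (a.2.1 l : ℤ)) fun l => (a.2.2 l : ℤ)

end Pool.Agent.TWB
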