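import Pool.Agent.TWB.Defs
import Pool.Agent.FOR.NPs
import Pool.Agent.FOR.NLev

/-!
# TWB: the degree of the curve
-/

set_option autoImplicit false

namespace Pool.Agent.TWB

open MvPolynomial
open Pool.Agent.FOR (Ps lev sz Dg)

theorem dg_totalDegree (R : Type*) [CommSemiring R] (σ : Type*) :
    Dg (fun p : MvPolynomial σ R => p.totalDegree) where
  add := fun x y => totalDegree_add x y
  mul := fun x y => totalDegree_mul x y
  nat := fun n => by
    have h : ((n : ℕ) : MvPolynomial σ R) = C (n : R) := (map_natCast C n).symm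
    show totalDegree ((n : ℕ) : MvPolynomial σ R) = 0
    rw [h]
    exact totalDegree_C _

theorem sz_pow_le (m : ℕ) : sz (lev m) ^ 240 ≤ 2 ^ 3840 * (m + 1) ^ 480 := by
  refine (Nat.pow_le_pow_left (Pool.Agent.FOR.sz_lev_le m) 240).trans (le_of_eq ?_)
  rw [mul_pow, ← pow_mul, ← pow_mul]

theorem totalDegree_Ps {i : ℕ} (L : ℕ) (hi : i < sz L) :
    (Ps L (X 0) (X 1) i : MvPolynomial (Fin 2) ℚ).totalDegree ≤ sz L ^ 240 + 1 := by
  have h := Pool.Agent.FOR.dg_Ps (dg_totalDegree ℚ (Fin 2)) L i hi (X 0) (X 1)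
  refine h.trans ?_
  have h0 : (X 0 : MvPolynomial (Fin 2) ℚ).totalDegree = 1 := totalDegree_X 0
  have h1 : (X 1 : MvPolynomial (Fin 2) ℚ).totalDegree = 1 := totalDegree_X 1
  show sz L ^ 240 * (X 0 : MvPolynomial (Fin 2) ℚ).totalDegree +
    (X 1 : MvPolynomial (Fin 2) ℚ).totalDegree ≤ _
  rw [h0, h1, mul_one]

end Pool.Agent.TWB
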