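import Pool.Agent.TWB.Defs
import Pool.Agent.TWA.CutB
import Pool.Agent.TWA.Exps
import Pool.Agent.Helper8.Occ.Sparse

/-!
# TWB: (H2) for the leaves
-/

set_option autoImplicit false

namespace Pool.Agent.TWB

open MvPolynomial
open Pool.Agent.AOI (Cut Cuts)
open Pool.Agent.Helper8.Occ
open Pool.Agent.Helper7 (shf coefSub coefSub_mono C_mem_coefSub shf_eq_C shf_mem_of_vars)
open Pool.Agent.Helper7.T1 (Pat ext offJ onJ decompose ext_monomial vars_ext vars_onJ)

variable {n r : ℕ}

/-- A factor without the variables `J` comes out of `ext`. -/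
theorem ext_mul (J : Fin r → Fin n) (β : Fin r → ℕ) (u v : MvPolynomial (Fin n) ℚ)
    (hv : ∀ j, J j ∉ v.vars) : ext J β (u * v) = ext J β u * v := by
  classical
  conv_lhs => rw [u.as_sum, v.as_sum, Finset.sum_mul_sum]
  conv_rhs => rw [u.as_sum, v.as_sum]
  rw [map_sum, map_sum, Finset.sum_mul_sum]
  refine Finset.sum_congr rfl fun m hm => ?_
  rw [map_sum]
  refine Finset.sum_congr rfl fun m' hm' => ?_
  have h0 : ∀ j, m' (J j) = 0 := by
    intro j
    by_contra hne
    exact hv j ((mem_vars_iff_mem_support _).2 ⟨m', hm', Finsupp.mem_support_iff.2 hne⟩)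
  rw [monomial_mul, ext_monomial, ext_monomial, monomial_mul]
  have h1 : offJ J (m + m') = offJ J m + m' := by
    unfold offJ
    rw [Finsupp.filter_add]
    congr 1
    rw [Finsupp.filter_eq_self_iff]
    intro i hi j hj
    rw [← hj] at hi
    exact hi (h0 j)
  have h2 : (fun j => (m + m') (J j)) = fun j => m (J j) := by
    funext j
    rw [Finsupp.add_apply, h0, add_zero]
  rw [h1]
  simp only [h2]
  split_ifs
  · rfl
  · rw [zero_mul]

/-- The span of the coefficients of the monomials in the variables `J`. -/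
noncomputable def VJ (J : Fin r → Fin n) (g : MvPolynomial (Fin n) ℚ) :
    Submodule ℚ (MvPolynomial (Fin n) ℚ) :=
  Submodule.span ℚ (Set.range fun β => ext J β g)

theorem vars_comb (J : Fin r → Fin n) (c : (Fin r → ℕ) →₀ ℚ) (u : MvPolynomial (Fin n) ℚ)
    (T : Finset (Fin n)) (hu : ∀ i ∈ u.vars, i ∈ T ∨ ∃ j, J j = i) :
    (c.sum fun β a => a • ext J β u).vars ⊆ T := by
  classical
  have h1 : (c.sum fun β a => a • ext J β u) ∈ supported ℚ (T : Set (Fin n)) := by
    refine (supported ℚ _).sum_mem fun β _ => (supported ℚ _).smul_mem ?_ _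
    have h0 : ext J β u = ∑ m ∈ u.support, ext J β (monomial m (coeff m u)) := by
      conv_lhs => rw [u.as_sum, map_sum]
    rw [h0]
    refine (supported ℚ _).sum_mem fun m hm => ?_
    rw [ext_monomial, mem_supported]
    generalize (if (fun j => m (J j)) = β then coeff m u else 0) = a
    by_cases hc : a = 0
    · rw [hc, monomial_zero, vars_0, Finset.coe_empty]
      exact Set.empty_subset _
    · rw [vars_monomial hc]
      intro i hi
      rw [Finset.mem_coe, Finsupp.mem_support_iff, offJ, Finsupp.filter_apply] at hi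
      have h2 : ∀ j, J j ≠ i := by
        by_contra hcon
        exact hi (if_neg hcon)
      rw [if_pos h2] at hi
      rcases hu i ((mem_vars_iff_mem_support _).2 ⟨m, hm, Finsupp.mem_support_iff.2 hi⟩) with h | ⟨j, hj⟩
      · exact h
      · exact absurd hj (h2 j)
  rw [mem_supported] at h1
  exact_mod_cast h1

theorem cuts_of_mem_VJ {w : ℕ} {g : MvPolynomial (Fin n) ℚ} (h : Cuts w g) (J : Fin r → Fin n)
    {v : MvPolynomial (Fin n) ℚ} (hv : v ∈ VJ J g) : Cuts w v := by
  classical
  obtain ⟨c, hc⟩ := (Finsupp.mem_span_range_iff_exists_finsupp).1 hv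
  intro T
  obtain ⟨a, b, ha, hb, hab⟩ := h (T ∪ Finset.univ.image J)
  refine ⟨fun l => c.sum fun β x => x • ext J β (a l), b, fun l => ?_, fun l => ?_, ?_⟩
  · refine vars_comb J c (a l) T fun i hi => ?_
    rcases Finset.mem_union.1 (ha l hi) with h1 | h1
    · exact Or.inl h1
    · obtain ⟨j, _, hj⟩ := Finset.mem_image.1 h1
      exact Or.inr ⟨j, hj⟩
  · refine (hb l).trans (Finset.compl_subset_compl.2 Finset.subset_union_left)
  · rw [← hc]
    have h1 : ∀ β, ext J β g = ∑ l, ext J β (a l) * b l := by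
      intro β
      conv_lhs => rw [hab]
      rw [map_sum]
      refine Finset.sum_congr rfl fun l _ => ext_mul J β _ _ fun j hj => ?_
      have h2 := hb l hj
      rw [Finset.mem_compl] at h2
      exact h2 (Finset.mem_union_right _ (Finset.mem_image_of_mem _ (Finset.mem_univ j)))
    simp only [Finsupp.sum, h1, Finset.smul_sum, Finset.sum_mul]
    rw [Finset.sum_comm]
    refine Finset.sum_congr rfl fun l _ => Finset.sum_congr rfl fun β _ => ?_
    rw [smul_mul_assoc]

theorem VJ_le {P : ℕ} {g : MvPolynomial (Fin n) ℚ} (J : Fin r → Fin n)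
    (h : Cut P (Finset.univ.image J) g) :
    ∃ b : Fin P → MvPolynomial (Fin n) ℚ, VJ J g ≤ Submodule.span ℚ (Set.range b) := by
  classical
  obtain ⟨a, b, ha, hb, hab⟩ := h
  refine ⟨b, Submodule.span_le.2 ?_⟩
  rintro _ ⟨β, rfl⟩
  have h1 : ext J β g = ∑ l, ext J β (a l) * b l := by
    conv_lhs => rw [hab]
    rw [map_sum]
    refine Finset.sum_congr rfl fun l _ => ext_mul J β _ _ fun j hj => ?_
    have h2 := hb l hj
    rw [Finset.mem_compl] at h2
    exact h2 (Finset.mem_image_of_mem _ (Finset.mem_univ j))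
  have h2 : ∀ l, ∃ c : ℚ, ext J β (a l) = C c := by
    intro l
    have h3 : (ext J β (a l)).vars = ∅ := by
      have h4 := vars_comb J (Finsupp.single β 1) (a l) ∅ fun i hi => ?_
      · rw [Finsupp.sum_single_index (by rw [zero_smul]), one_smul] at h4
        exact Finset.subset_empty.1 h4
      · obtain ⟨j, _, hj⟩ := Finset.mem_image.1 (ha l hi)
        exact Or.inr ⟨j, hj⟩
    exact ⟨_, vars_eq_empty_iff_eq_C.1 h3⟩
  choose c hc using h2
  show ext J β g ∈ Submodule.span ℚ (Set.range b)
  rw [h1]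
  refine Submodule.sum_mem _ fun l _ => ?_
  rw [hc, ← smul_eq_C_mul]
  exact Submodule.smul_mem _ _ (Submodule.subset_span (Set.mem_range_self l))

/-- **(H2)** for the leaves. -/
theorem leaf_H2 {k w P : ℕ} :
    Pool.Agent.Helper8.Occ.H2 {g : MvPolynomial (Fin n) ℚ | Leaf n k w P g}
      {g : MvPolynomial (Fin n) ℚ | Cuts (w + 1) g} k (k + (P + 1)) := by
  classical
  intro g hg r hr J
  have hS : (Finset.univ.image J).card ≤ k := by
    refine Finset.card_image_le.trans ?_
    rwa [Finset.card_univ, Fintype.card_fin]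
  obtain ⟨b, hb⟩ := VJ_le J (hg.2 _ hS)
  have : Module.Finite ℚ (Submodule.span ℚ (Set.range b)) :=
    Module.Finite.span_of_finite ℚ (Set.finite_range b)
  have : Module.Finite ℚ (VJ J g) := Submodule.finiteDimensional_of_le hb
  have hfin : Module.finrank ℚ (VJ J g) ≤ P := by
    refine (Submodule.finrank_mono hb).trans ?_
    have h1 := finrank_range_le_card (R := ℚ) b
    rwa [Fintype.card_fin, Set.finrank] at h1
  let B := Module.finBasis ℚ (VJ J g)
  let AV : Finset (MvPolynomial (Fin n) ℚ) := Finset.univ.image fun i => (B i : MvPolynomial (Fin n) ℚ)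
  have hAV : VJ J g ≤ Submodule.span ℚ (AV : Set (MvPolynomial (Fin n) ℚ)) := by
    have h1 := B.span_eq
    have h2 : VJ J g = (⊤ : Submodule ℚ (VJ J g)).map (VJ J g).subtype := by
      rw [Submodule.map_top, Submodule.range_subtype]
    rw [h2, ← h1, Submodule.map_span]
    refine Submodule.span_mono ?_
    rintro _ ⟨_, ⟨i, rfl⟩, rfl⟩
    exact Finset.mem_coe.2 (Finset.mem_image_of_mem _ (Finset.mem_univ i))
  refine ⟨(Finset.univ.image fun j => X (J j)) ∪ AV, ?_, ?_, ?_⟩
  · intro a ha
    rcases Finset.mem_union.1 ha with ha | ha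
    · obtain ⟨j, _, rfl⟩ := Finset.mem_image.1 ha
      exact fun S => (Pool.Agent.AOI.Cut.X _).mono (by omega)
    · obtain ⟨i, _, rfl⟩ := Finset.mem_image.1 ha
      exact fun S => (cuts_of_mem_VJ hg.1 J (B i).2 S).mono (Nat.le_succ w)
  · refine (Finset.card_union_le _ _).trans (Nat.add_le_add ?_ ?_)
    · refine Finset.card_image_le.trans ?_
      rwa [Finset.card_univ, Fintype.card_fin]
    · refine Finset.card_image_le.trans ?_
      rw [Finset.card_univ, Fintype.card_fin]
      exact hfin.trans (Nat.le_succ P)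
  · set A : Finset (MvPolynomial (Fin n) ℚ) := (Finset.univ.image fun j => X (J j)) ∪ AV with hA
    have hX : ∀ i ∈ Finset.univ.image J, (X i : MvPolynomial (Fin n) ℚ) ∈
        Algebra.adjoin ℚ (A : Set (MvPolynomial (Fin n) ℚ)) := by
      intro i hi
      obtain ⟨j, -, rfl⟩ := Finset.mem_image.1 hi
      apply Algebra.subset_adjoin
      rw [Finset.mem_coe]
      exact Finset.mem_union_left _
        (Finset.mem_image_of_mem (fun j => X (J j)) (Finset.mem_univ j))
    have hV : ∀ v ∈ VJ J g, v ∈ Algebra.adjoin ℚ (A : Set (MvPolynomial (Fin n) ℚ)) := by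
      intro v hv
      have h1 : Submodule.span ℚ (AV : Set (MvPolynomial (Fin n) ℚ)) ≤
          Subalgebra.toSubmodule (Algebra.adjoin ℚ (A : Set (MvPolynomial (Fin n) ℚ))) := by
        refine (Submodule.span_mono ?_).trans (Algebra.span_le_adjoin ℚ _)
        exact Finset.coe_subset.2 Finset.subset_union_right
      exact h1 (hAV hv)
    rw [decompose J g, map_sum]
    refine (coefSub _ r).sum_mem fun β hβ => ?_
    rw [map_mul]
    refine (coefSub _ r).mul_mem (shf_mem_of_vars J (vars_onJ J β) hX) ?_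
    rw [shf_eq_C J (fun j => vars_ext J β g j)]
    apply C_mem_coefSub
    exact hV _ (Submodule.subset_span (Set.mem_range_self β))

end Pool.Agent.TWB
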