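import Pool.Agent.TWB.H1
import Pool.Agent.TWB.H2
import Pool.Agent.TWB.Deg
import Pool.Agent.FOR.Nt
import Pool.Agent.Helper8.Occ.Explicit

/-!
# TWB: main theorem
-/

set_option autoImplicit false

namespace Pool.Agent.TWB

open MvPolynomial
open Pool.Agent.AOI (Cut Cuts)
open Pool.Agent.FOR (Ps lev sz map_Ps)
open Pool.Agent.Helper8.Occ VF
open Pool.Agent.Helper7.T1 (exists_small)

variable {n : ℕ}

theorem map_gen {R S : Type*} [CommRing R] [CommRing S] (φ : R →+* S) (n L c : ℕ) (t e : R)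
    (z u : Fin c → R) (i : Fin n) :
    φ (gen n L c t e z u i) = gen n L c (φ t) (φ e) (fun l => φ (z l)) (fun l => φ (u l)) i := by
  unfold gen
  rw [map_add, map_Ps φ, map_sum]
  simp only [map_mul, map_prod, map_sub, map_natCast]

theorem full_eq (n L c : ℕ) (i : Fin n) : full n L c i =
    rename Sum.inl (crv n L i) + rename Sum.inr (Pool.Agent.Helper5.genPoly n c i) := by
  unfold full gen crv Pool.Agent.Helper5.genPoly
  have h1 := map_Ps (rename (Sum.inl : Fin 2 → Fin 2 ⊕ (Fin c ⊕ Fin c)) :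
    MvPolynomial (Fin 2) ℚ →ₐ[ℚ] _).toRingHom L (X 0) (X 1) (i : ℕ)
  simp only [AlgHom.toRingHom_eq_coe, RingHom.coe_coe, rename_X] at h1
  rw [h1, map_sum]
  congr 1
  refine Finset.sum_congr rfl fun l _ => ?_
  rw [map_mul, map_prod, rename_X]
  congr 1
  refine Finset.prod_congr rfl fun j _ => ?_
  rw [map_sub, rename_X, rename_C, map_natCast]

theorem totalDegree_full (n L c : ℕ) (hL : n ≤ sz L) (i : Fin n) :
    (full n L c i).totalDegree ≤ sz L ^ 240 + n + 1 := by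
  rw [full_eq]
  refine (totalDegree_add _ _).trans (max_le ?_ ?_)
  · refine (totalDegree_rename_le _ _).trans ((totalDegree_Ps L (i.2.trans_le hL)).trans ?_)
    omega
  · refine (totalDegree_rename_le _ _).trans ((Helper6.totalDegree_genPoly n c i).trans ?_)
    omega

theorem mem_hit {L c R : ℕ} (s : Fin 2 ⊕ (Fin c ⊕ Fin c) → ℕ) (hs : ∀ j, s j ≤ R) :
    ∃ x ∈ hit n L c R, ∀ i, ((x i : ℤ) : ℚ) = eval (fun j => (s j : ℚ)) (full n L c i) := by
  classical
  refine ⟨gen n L c (s (Sum.inl 0) : ℤ) (s (Sum.inl 1) : ℤ)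
    (fun l => (s (Sum.inr (Sum.inl l)) : ℤ)) (fun l => (s (Sum.inr (Sum.inr l)) : ℤ)), ?_,
    fun i => ?_⟩
  · unfold hit
    refine Finset.mem_image.2 ⟨((s (Sum.inl 0), s (Sum.inl 1)),
      (fun l => s (Sum.inr (Sum.inl l)), fun l => s (Sum.inr (Sum.inr l)))), ?_, rfl⟩
    simp only [Finset.mem_product, Finset.mem_range, Fintype.mem_piFinset, Nat.lt_succ_iff]
    exact ⟨⟨hs _, hs _⟩, fun _ => hs _, fun _ => hs _⟩
  · have h1 := map_gen (Int.castRingHom ℚ) n L c (s (Sum.inl 0) : ℤ) (s (Sum.inl 1) : ℤ)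
      (fun l => (s (Sum.inr (Sum.inl l)) : ℤ)) (fun l => (s (Sum.inr (Sum.inr l)) : ℤ)) i
    have h2 := map_gen (eval (fun j => (s j : ℚ)) : MvPolynomial _ ℚ →+* ℚ) n L c
      (X (Sum.inl 0)) (X (Sum.inl 1)) (fun l => X (Sum.inr (Sum.inl l)))
      (fun l => X (Sum.inr (Sum.inr l))) i
    simp only [eval_X, eq_intCast, Int.cast_natCast] at h1 h2
    exact h1.trans h2.symm

theorem card_hit (n L c R : ℕ) : (hit n L c R).card ≤ (R + 1) ^ (2 + 2 * c) := by
  classical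
  unfold hit
  refine Finset.card_image_le.trans ?_
  rw [Finset.card_product, Finset.card_product, Finset.card_product, Fintype.card_piFinset,
    Finset.card_range]
  simp only [Finset.card_range, Finset.prod_const, Finset.card_univ, Fintype.card_fin]
  rw [← pow_add, ← sq, ← pow_add]
  exact le_of_eq (by congr 1; ring)

/-- The generator. -/
theorem gen_hit {κ k w P Δ : ℕ} {N m : ℕ}
    (g : Fin N → Fin m → MvPolynomial (Fin n) ℚ) (e : Fin N → Fin m → ℕ)
    (hg : ∀ i j, OccFormula κ (Leaf n k w P) Δ (g i j))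
    (htr : ∀ b : Finset (Fin N),
      AlgebraicIndepOn ℚ (fun i => ∏ j, g i j ^ e i j) (b : Set (Fin N)) → b.card ≤ k)
    (F : MvPolynomial (Fin n) ℚ)
    (hF : F ∈ Algebra.adjoin ℚ (Set.range fun i => ∏ j, g i j ^ e i j)) (hF0 : F ≠ 0) :
    aeval (full n (lvl n κ k w P Δ) (seeds κ k P Δ)) F ≠ 0 := by
  classical
  have h1 : Phi (crv n (lvl n κ k w P Δ)) (seeds κ k P Δ) F ≠ 0 := by
    refine Phi_mono _ (extra_le κ k P Δ) ?_
    have key := occ_hit (k := k) (κ := κ) (Δ := Δ) (c := 0) (t₀ := k + (P + 1))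
      (crv n (lvl n κ k w P Δ))
      {g : MvPolynomial (Fin n) ℚ | Leaf n k w P g}
      {g : MvPolynomial (Fin n) ℚ | Cuts (w + 1) g}
      (fun g hg S => (hg.1 S).mono (Nat.le_succ _))
      (fun S => Cut.zero _) leaf_H2 (by
        rw [minors_eq]
        exact leaf_H1 w (order κ k P Δ) Δ)
      (fun i => ∏ j, g i j ^ e i j) ?_ htr F hF hF0
    · rw [Nat.zero_add] at key
      exact key
    · intro i
      exact Submonoid.prod_mem _ fun j _ => Submonoid.pow_mem _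
        (Submonoid.subset_closure (show g i j ∈ Pool.Agent.Helper8.Occ.F κ _ Δ from hg i j)) _
  have h2 : full n (lvl n κ k w P Δ) (seeds κ k P Δ) = fun i =>
      rename Sum.inl (crv n (lvl n κ k w P Δ) i) +
        rename Sum.inr (Pool.Agent.Helper5.genPoly n (seeds κ k P Δ) i) :=
    funext fun i => full_eq _ _ _ _
  rw [h2]
  exact h1

theorem totalDegree_full' (n κ k w P Δ c : ℕ) (i : Fin n) :
    (full n (lvl n κ k w P Δ) c i).totalDegree ≤ deg n κ k w P Δ := by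
  refine (totalDegree_full n _ c ?_ i).trans ?_
  · exact (le_max_left _ _).trans (Pool.Agent.FOR.le_sz_lev _)
  · unfold deg
    have h1 := sz_pow_le (max n (rk κ k w P Δ))
    have h2 : (max n (rk κ k w P Δ) + 1) ^ 480 ≤ (n + rk κ k w P Δ + 1) ^ 480 := by
      refine Nat.pow_le_pow_left ?_ _
      have := max_le (Nat.le_add_right n (rk κ k w P Δ)) (Nat.le_add_left (rk κ k w P Δ) n)
      omega
    have h3 := Nat.mul_le_mul_left (2 ^ 3840) h2
    unfold lvl
    omega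

/-- **Theorem W2.** -/
theorem hit_W2 {κ k w P Δ R : ℕ} {N m : ℕ}
    (g : Fin N → Fin m → MvPolynomial (Fin n) ℚ) (e : Fin N → Fin m → ℕ)
    (hg : ∀ i j, OccFormula κ (Leaf n k w P) Δ (g i j))
    (htr : ∀ b : Finset (Fin N),
      AlgebraicIndepOn ℚ (fun i => ∏ j, g i j ^ e i j) (b : Set (Fin N)) → b.card ≤ k)
    (F : MvPolynomial (Fin n) ℚ)
    (hF : F ∈ Algebra.adjoin ℚ (Set.range fun i => ∏ j, g i j ^ e i j)) (hF0 : F ≠ 0)
    (f : MvPolynomial (Fin n) ℚ) (hf : f ∣ F)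
    (hR : deg n κ k w P Δ * f.totalDegree ≤ R ∨
      (∃ a : Fin N → ℚ, F = ∑ i, C (a i) * ∏ j, g i j ^ e i j) ∧
        2 ^ (N + 1) * (deg n κ k w P Δ * ∑ i, ∑ j, (g i j).totalDegree) + N ≤ R) :
    ∃ x ∈ hit n (lvl n κ k w P Δ) (seeds κ k P Δ) R, eval (fun i => ((x i : ℤ) : ℚ)) f ≠ 0 := by
  classical
  have h1 := gen_hit g e hg htr F hF hF0
  obtain ⟨f', hf'⟩ := hf
  rcases hR with hR | ⟨⟨a, ha⟩, hR⟩
  · have h2 : aeval (full n (lvl n κ k w P Δ) (seeds κ k P Δ)) f ≠ 0 := by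
      rw [hf', map_mul] at h1
      exact left_ne_zero_of_mul h1
    have h3 : (aeval (full n (lvl n κ k w P Δ) (seeds κ k P Δ)) f).totalDegree ≤ R :=
      (Helper6.totalDegree_aeval_le _ _ (fun i => totalDegree_full' n κ k w P Δ _ i) f).trans
        (by rw [mul_comm]; exact hR)
    obtain ⟨s', hs', h4⟩ := exists_small _ h2 h3
    obtain ⟨x, hx, hxe⟩ := mem_hit (n := n) (L := lvl n κ k w P Δ) s' hs'
    refine ⟨x, hx, ?_⟩
    rw [Pool.Agent.Helper7.T3.eval_aeval'] at h4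
    rwa [funext hxe]
  · rw [ha] at h1
    obtain ⟨s', hs', h3⟩ := Helper6.exists_nat_seed (full n (lvl n κ k w P Δ) (seeds κ k P Δ))
      (fun i => totalDegree_full' n κ k w P Δ _ i) a g e le_rfl h1
    obtain ⟨x, hx, hxe⟩ := mem_hit (n := n) (L := lvl n κ k w P Δ) (R := R) s'
      (fun j => (hs' j).trans (by rw [mul_comm _ (deg n κ k w P Δ)]; exact hR))
    refine ⟨x, hx, ?_⟩
    rw [← ha, hf', map_mul] at h3
    rw [funext hxe]
    exact left_ne_zero_of_mul h3

end Pool.Agent.TWB
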