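import Pool.Agent.TWB.Defs
import Pool.Agent.TWA.CutB
import Pool.Agent.FOR.Main
import Pool.Agent.Helper8.Occ.Sparse

/-!
# TWB: (H1) for the leaves
-/

set_option autoImplicit false

namespace Pool.Agent.TWB

open MvPolynomial
open Pool.Agent.AOI (Cut Cuts)
open Pool.Agent.FOR (Ps lev)
open Pool.Agent.Helper8.Occ VF

variable {n : ℕ}

theorem cuts_pd {w : ℕ} {g : MvPolynomial (Fin n) ℚ} (h : Cuts w g) (L : List (Fin n)) :
    Cuts w (pd L g) := by
  induction L with
  | nil => exact h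
  | cons v L ih => exact fun S => (ih S).pderiv v

/-- The base curve. -/
noncomputable def crv (n L : ℕ) (i : Fin n) : MvPolynomial (Fin 2) ℚ :=
  Ps L (X 0) (X 1) (i : ℕ)

theorem leaf_H1 (w M₀ Δ : ℕ) :
    Pool.Agent.Helper8.Occ.H1 (crv n (lev (max n (M₀.factorial * (w + 1) ^ M₀)))) 0
      (Dc {g : MvPolynomial (Fin n) ℚ | Cuts (w + 1) g} Δ) M₀ := by
  intro M hM a ha J hdet
  apply Phi_of_aeval
  have h1 : ∀ i, Cuts (w + 1) (a i) := by
    intro i
    obtain ⟨L, _, b, hb, hab⟩ := ha i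
    rw [hab]
    exact cuts_pd hb L
  refine Pool.Agent.FOR.gen _ hdet fun S => ?_
  exact (Pool.Agent.AOI.Cut.det _ fun i j => (h1 i S).pderiv (J j)).mono
    (Nat.mul_le_mul (Nat.factorial_le hM) (Nat.pow_le_pow_right (Nat.succ_pos w) hM))

end Pool.Agent.TWB
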