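import Pool.Agent.TWB.Deg
import Pool.Agent.FOR.Bit
import Pool.Agent.FOR.Nt

/-!
# TWB: the coordinates of the points
-/

set_option autoImplicit false

namespace Pool.Agent.TWB

open Pool.Agent.FOR (Ps lev sz)

theorem sz_pow_le' (m : ℕ) : sz (lev m) ^ 250 ≤ 2 ^ 4000 * (m + 1) ^ 500 := by
  refine (Nat.pow_le_pow_left (Pool.Agent.FOR.sz_lev_le m) 250).trans (le_of_eq ?_)
  rw [mul_pow, ← pow_mul, ← pow_mul]

private theorem add_le_pow {Q a b : ℕ} (hQ : 2 ≤ Q) (ha : 1 ≤ a) (hb : 1 ≤ b) :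
    Q ^ a + Q ^ b ≤ Q ^ (a + b) := by
  have h1 : 2 ≤ Q ^ a := hQ.trans (Nat.le_self_pow (by omega) Q)
  have h2 : 2 ≤ Q ^ b := hQ.trans (Nat.le_self_pow (by omega) Q)
  rw [pow_add]
  nlinarith

theorem gen_le {n L c R : ℕ} (hn : n ≤ sz L) (t e : ℕ) (z u : Fin c → ℕ) (ht : t ≤ R) (he : e ≤ R)
    (hz : ∀ l, z l ≤ R) (hu : ∀ l, u l ≤ R) (i : Fin n) :
    |gen n L c (t : ℤ) (e : ℤ) (fun l => (z l : ℤ)) (fun l => (u l : ℤ)) i| ≤
      ((2 * R + n + c + 2 : ℕ) : ℤ) ^ (sz L ^ 250 + (n + 1)) := by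
  obtain ⟨Q, hQ⟩ : ∃ Q, Q = 2 * R + n + c + 2 := ⟨_, rfl⟩
  rw [← hQ]
  have hQ2 : 2 ≤ Q := by omega
  have h1 : |Ps L (t : ℤ) (e : ℤ) (i : ℕ)| ≤ (Q : ℤ) ^ sz L ^ 250 := by
    have h2 := Pool.Agent.FOR.map_Ps (Nat.castRingHom ℤ) L t e (i : ℕ)
    simp only [eq_natCast] at h2
    rw [← h2, Nat.abs_cast]
    have h3 := Pool.Agent.FOR.vb_Ps L i (i.2.trans_le hn) t e
    have h4 : (t + e + 2) ^ sz L ^ 250 ≤ Q ^ sz L ^ 250 := Nat.pow_le_pow_left (by omega) _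
    exact_mod_cast (Nat.le_add_right _ 2).trans (h3.trans h4)
  have h5 : |∑ l, (z l : ℤ) * ∏ j ∈ Finset.univ.erase i, ((u l : ℤ) - ((j : ℕ) : ℤ))| ≤
      (Q : ℤ) ^ (n + 1) := by
    have h6 : ∀ l ∈ (Finset.univ : Finset (Fin c)),
        |(z l : ℤ) * ∏ j ∈ Finset.univ.erase i, ((u l : ℤ) - ((j : ℕ) : ℤ))| ≤ (Q : ℤ) ^ n := by
      intro l _
      rw [abs_mul, Nat.abs_cast, Finset.abs_prod]
      have h7 : ∏ j ∈ Finset.univ.erase i, |(u l : ℤ) - ((j : ℕ) : ℤ)| ≤ (Q : ℤ) ^ (n - 1) := by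
        have h8 : (Finset.univ.erase i).card = n - 1 := by
          rw [Finset.card_erase_of_mem (Finset.mem_univ i), Finset.card_univ, Fintype.card_fin]
        rw [← h8, ← Finset.prod_const]
        refine Finset.prod_le_prod (fun _ _ => abs_nonneg _) fun j _ => ?_
        have h9 := hu l
        have h10 := j.2
        rw [abs_le]
        constructor <;> omega
      have h11 : (z l : ℤ) ≤ Q := by
        have := hz l
        omega
      have h12 : n = (n - 1) + 1 := by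
        have := i.2
        omega
      conv_rhs => rw [h12, pow_succ, mul_comm]
      exact mul_le_mul h11 h7 (Finset.prod_nonneg fun _ _ => abs_nonneg _) (by positivity)
    refine (Finset.abs_sum_le_sum_abs _ _).trans ((Finset.sum_le_card_nsmul _ _ _ h6).trans ?_)
    rw [Finset.card_univ, Fintype.card_fin, nsmul_eq_mul, pow_succ, mul_comm]
    refine mul_le_mul_of_nonneg_left ?_ (by positivity)
    omega
  have h13 := add_le_pow (a := sz L ^ 250) (b := n + 1) hQ2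
    (Nat.one_le_pow _ _ (Pool.Agent.FOR.sz_pos L)) (Nat.le_add_left 1 n)
  have h14 : (Q : ℤ) ^ sz L ^ 250 + (Q : ℤ) ^ (n + 1) ≤ (Q : ℤ) ^ (sz L ^ 250 + (n + 1)) := by
    exact_mod_cast h13
  exact (abs_add_le _ _).trans ((add_le_add h1 h5).trans h14)

theorem hit_le {n κ k w P Δ c R : ℕ} (x : Fin n → ℤ) (hx : x ∈ hit n (lvl n κ k w P Δ) c R)
    (i : Fin n) : |x i| ≤ ((2 * R + n + c + 2 : ℕ) : ℤ) ^ bits n κ k w P Δ := by
  classical
  unfold hit at hx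
  obtain ⟨⟨⟨t, e⟩, z, u⟩, hq, rfl⟩ := Finset.mem_image.1 hx
  simp only [Finset.mem_product, Finset.mem_range, Fintype.mem_piFinset, Nat.lt_succ_iff] at hq
  refine (gen_le ((le_max_left _ _).trans (Pool.Agent.FOR.le_sz_lev _)) t e z u hq.1.1 hq.1.2
    hq.2.1 hq.2.2 i).trans ?_
  refine pow_le_pow_right₀ (by exact_mod_cast Nat.le_add_left 1 _) ?_
  unfold bits
  have h1 := sz_pow_le' (max n (rk κ k w P Δ))
  have h2 : (max n (rk κ k w P Δ) + 1) ^ 500 ≤ (n + rk κ k w P Δ + 1) ^ 500 := by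
    refine Nat.pow_le_pow_left ?_ _
    have := max_le (Nat.le_add_right n (rk κ k w P Δ)) (Nat.le_add_left (rk κ k w P Δ) n)
    omega
  have h3 := Nat.mul_le_mul_left (2 ^ 4000) h2
  omega

end Pool.Agent.TWB
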