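import Pool.Agent.TWB.Fin
import Pool.Agent.TWB.Size

/-!
# TWB: statement of Theorem W2 (becomes Results/MP_e2be99_lc/TopFaninAnyOrder.lean)
-/

set_option autoImplicit false

namespace Pool.Agent.TWB.TopFaninAnyOrder

open MvPolynomial
open Pool.Agent.TWB (Leaf lvl deg bits full hit)
open Pool.Agent.Helper8.Occ (OccFormula seeds)

theorem result (n κ k w P Δ R : ℕ) :
    (∀ i, (full n (lvl n κ k w P Δ) (seeds κ k P Δ) i).totalDegree ≤ deg n κ k w P Δ) ∧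
    (hit n (lvl n κ k w P Δ) (seeds κ k P Δ) R).card ≤ (R + 1) ^ (2 + 2 * seeds κ k P Δ) ∧
    (∀ x ∈ hit n (lvl n κ k w P Δ) (seeds κ k P Δ) R, ∀ i,
      |x i| ≤ ((2 * R + n + seeds κ k P Δ + 2 : ℕ) : ℤ) ^ bits n κ k w P Δ) ∧
    ∀ (N m : ℕ) (g : Fin N → Fin m → MvPolynomial (Fin n) ℚ) (e : Fin N → Fin m → ℕ),
      (∀ i j, OccFormula κ (Leaf n k w P) Δ (g i j)) →
      (∀ b : Finset (Fin N),
        AlgebraicIndepOn ℚ (fun i => ∏ j, g i j ^ e i j) (b : Set (Fin N)) → b.card ≤ k) →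
      ∀ F ∈ Algebra.adjoin ℚ (Set.range fun i => ∏ j, g i j ^ e i j), F ≠ 0 →
        aeval (full n (lvl n κ k w P Δ) (seeds κ k P Δ)) F ≠ 0 ∧
        ∀ f : MvPolynomial (Fin n) ℚ, f ∣ F →
          (deg n κ k w P Δ * f.totalDegree ≤ R ∨
            (∃ a : Fin N → ℚ, F = ∑ i, C (a i) * ∏ j, g i j ^ e i j) ∧
              2 ^ (N + 1) * (deg n κ k w P Δ * ∑ i, ∑ j, (g i j).totalDegree) + N ≤ R) →
          ∃ x ∈ hit n (lvl n κ k w P Δ) (seeds κ k P Δ) R,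
            eval (fun i => ((x i : ℤ) : ℚ)) f ≠ 0 :=
  ⟨totalDegree_full' n κ k w P Δ _, card_hit n _ _ R, fun x hx i => hit_le x hx i,
    fun _ _ g e hg htr F hF hF0 =>
      ⟨gen_hit g e hg htr F hF hF0, fun f hf hR => hit_W2 g e hg htr F hF hF0 f hf hR⟩⟩

end Pool.Agent.TWB.TopFaninAnyOrder
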