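import Pool.Agent.TWB.Fin
import Pool.Agent.TWB.Size
import Pool.Agent.ROQ.Base

/-!
# TWB: read-once compositions of any depth

The class `W2` of Theorem W2 stays nonconstant under the generator, so the read-once compositions over
`W2` (everything algebraic over two members without common variables, nested) are hit by the generator
with one more pair of parameters `z ∏_(j ≠ i) (u - j)`.
-/

set_option autoImplicit false

namespace Pool.Agent.TWB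

open MvPolynomial
open Pool.Agent.ROL (pw map_pw)
open Pool.Agent.ROQ (RO pq map_pq)
open Pool.Agent.FOR (Ps)
open Pool.Agent.Helper8.Occ (OccFormula seeds)

variable {n : ℕ}

/-- Polynomials in products `∏_j g_ij ^ e_ij`, at most `k` of them algebraically independent, of
formulas of depth `Δ` over `Leaf n k w P`. -/
def W2 (n κ k w P Δ : ℕ) (F : MvPolynomial (Fin n) ℚ) : Prop :=
  ∃ (N m : ℕ) (g : Fin N → Fin m → MvPolynomial (Fin n) ℚ) (e : Fin N → Fin m → ℕ),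
    (∀ i j, OccFormula κ (Leaf n k w P) Δ (g i j)) ∧
    (∀ b : Finset (Fin N),
      AlgebraicIndepOn ℚ (fun i => ∏ j, g i j ^ e i j) (b : Set (Fin N)) → b.card ≤ k) ∧
    F ∈ Algebra.adjoin ℚ (Set.range fun i => ∏ j, g i j ^ e i j)

private theorem Ro_nonconst (κ k w P Δ : ℕ) (F : MvPolynomial (Fin n) ℚ) (hF : W2 n κ k w P Δ F)
    (hc : ∀ c, F ≠ C c) (c : ℚ) :
    aeval (full n (lvl n κ k w P Δ) (seeds κ k P Δ)) F ≠ C c := by
  intro h
  obtain ⟨N, m, g, e, hg, htr, hF⟩ := hF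
  refine gen_hit g e hg htr (F - C c)
    (Subalgebra.sub_mem _ hF (Subalgebra.algebraMap_mem _ c)) (fun h1 => hc c (sub_eq_zero.1 h1)) ?_
  rw [map_sub, h, aeval_C, algebraMap_eq, sub_self]

/-- the specialization of the parameters -/
private noncomputable def Ro_q (n c : ℕ) :
    Fin 2 ⊕ (Fin (c + 1) ⊕ Fin (c + 1)) → MvPolynomial ((Fin 2 ⊕ (Fin c ⊕ Fin c)) ⊕ Fin 2) ℚ
  | .inl a => X (.inl (.inl a))
  | .inr (.inl l) => Fin.lastCases (C ((-1) ^ (n - 1)) * X (.inr 0)) (fun l => X (.inl (.inr (.inl l)))) l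
  | .inr (.inr l) => Fin.lastCases (- X (.inr 1)) (fun l => X (.inl (.inr (.inr l)))) l

private theorem Ro_gen_map {R S : Type*} [CommRing R] [CommRing S] (φ : R →+* S) (n L c : ℕ) (t e : R)
    (z u : Fin c → R) (i : Fin n) : φ (gen n L c t e z u i) =
      gen n L c (φ t) (φ e) (fun l => φ (z l)) (fun l => φ (u l)) i := by
  unfold gen
  rw [map_add, Pool.Agent.FOR.map_Ps φ, map_sum]
  congr 1
  refine Finset.sum_congr rfl fun l _ => ?_
  rw [map_mul, map_prod]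
  congr 1
  refine Finset.prod_congr rfl fun j _ => ?_
  rw [map_sub, map_natCast]

private theorem Ro_spec (n L c : ℕ) (i : Fin n) :
    aeval (Ro_q n c) (full n L (c + 1) i) = Pool.Agent.ROQ.ext 1 (full n L c) i := by
  unfold full
  have h1 := Ro_gen_map (aeval (Ro_q n c) : MvPolynomial (Fin 2 ⊕ (Fin (c + 1) ⊕ Fin (c + 1))) ℚ →ₐ[ℚ] _).toRingHom
    n L (c + 1) (X (Sum.inl 0)) (X (Sum.inl 1)) (fun l => X (Sum.inr (Sum.inl l)))
    (fun l => X (Sum.inr (Sum.inr l))) i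
  simp only [AlgHom.toRingHom_eq_coe, RingHom.coe_coe, aeval_X] at h1
  rw [h1]
  unfold Pool.Agent.ROQ.ext
  have h2 := Ro_gen_map (rename (Sum.inl : Fin 2 ⊕ (Fin c ⊕ Fin c) → (Fin 2 ⊕ (Fin c ⊕ Fin c)) ⊕ Fin (1 + 1)) :
    MvPolynomial (Fin 2 ⊕ (Fin c ⊕ Fin c)) ℚ →ₐ[ℚ] _).toRingHom
    n L c (X (Sum.inl 0)) (X (Sum.inl 1)) (fun l => X (Sum.inr (Sum.inl l)))
    (fun l => X (Sum.inr (Sum.inr l))) i
  simp only [AlgHom.toRingHom_eq_coe, RingHom.coe_coe, rename_X] at h2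
  rw [h2]
  unfold gen
  rw [Fin.sum_univ_castSucc, ← add_assoc]
  congr 1
  · congr 1
    refine Finset.sum_congr rfl fun l _ => ?_
    simp only [Ro_q, Fin.lastCases_castSucc]
  · simp only [Ro_q, Fin.lastCases_last]
    unfold pq
    rw [Fin.prod_univ_one]
    unfold pw
    have h3 : ∏ j ∈ Finset.univ.erase i, (-X (Sum.inr 1) - ((j : ℕ) : MvPolynomial
        ((Fin 2 ⊕ (Fin c ⊕ Fin c)) ⊕ Fin (1 + 1)) ℚ)) =
        (-1) ^ (n - 1) * ∏ j ∈ Finset.univ.erase i, (X (Sum.inr 1) + ((j : ℕ) : MvPolynomial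
        ((Fin 2 ⊕ (Fin c ⊕ Fin c)) ⊕ Fin (1 + 1)) ℚ)) := by
      have h4 : (Finset.univ.erase i).card = n - 1 := by
        rw [Finset.card_erase_of_mem (Finset.mem_univ i), Finset.card_univ, Fintype.card_fin]
      rw [← h4, ← Finset.prod_const, ← Finset.prod_mul_distrib]
      refine Finset.prod_congr rfl fun j _ => ?_
      ring
    have h5 : (C ((-1 : ℚ) ^ (n - 1)) : MvPolynomial ((Fin 2 ⊕ (Fin c ⊕ Fin c)) ⊕ Fin (1 + 1)) ℚ) *
        (-1) ^ (n - 1) = 1 := by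
      rw [C_pow, C_neg, C_1, ← mul_pow]
      simp
    show C ((-1 : ℚ) ^ (n - 1)) * X (Sum.inr 0) * ∏ j ∈ Finset.univ.erase i,
        (-X (Sum.inr 1) - ((j : ℕ) : MvPolynomial ((Fin 2 ⊕ (Fin c ⊕ Fin c)) ⊕ Fin (1 + 1)) ℚ)) =
      X (Sum.inr 0) * ∏ j ∈ Finset.univ.erase i,
        (X (Sum.inr 1) + ((j : ℕ) : MvPolynomial ((Fin 2 ⊕ (Fin c ⊕ Fin c)) ⊕ Fin (1 + 1)) ℚ))
    calc _ = C ((-1 : ℚ) ^ (n - 1)) * X (Sum.inr 0) * ((-1) ^ (n - 1) *
          ∏ j ∈ Finset.univ.erase i, (X (Sum.inr 1) + ((j : ℕ) : MvPolynomial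
          ((Fin 2 ⊕ (Fin c ⊕ Fin c)) ⊕ Fin (1 + 1)) ℚ))) := by rw [← h3]
      _ = (C ((-1 : ℚ) ^ (n - 1)) * (-1) ^ (n - 1)) * (X (Sum.inr 0) *
          ∏ j ∈ Finset.univ.erase i, (X (Sum.inr 1) + ((j : ℕ) : MvPolynomial
          ((Fin 2 ⊕ (Fin c ⊕ Fin c)) ⊕ Fin (1 + 1)) ℚ))) := by ring
      _ = _ := by rw [h5, one_mul]

/-- The generator with one more pair of parameters hits the divisors of products of nonzero read-once
compositions over `W2`. -/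
theorem ro_full (κ k w P Δ : ℕ) {N : ℕ} (Q : Fin N → MvPolynomial (Fin n) ℚ)
    (hQ : ∀ j, Q j ≠ 0 ∧ RO 1 (W2 n κ k w P Δ) (Q j)) (f : MvPolynomial (Fin n) ℚ)
    (hf : f ∣ ∏ j, Q j) :
    aeval (full n (lvl n κ k w P Δ) (seeds κ k P Δ + 1)) f ≠ 0 := by
  intro h
  have h1 := Pool.Agent.ROQ.ro_prod_hit (p := 1) one_pos
    (full n (lvl n κ k w P Δ) (seeds κ k P Δ)) (W2 n κ k w P Δ)
    (fun F hF hc c => Ro_nonconst κ k w P Δ F hF hc c) Q hQ f hf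
  apply h1
  have h2 := MvPolynomial.comp_aeval_apply (R := ℚ)
    (full n (lvl n κ k w P Δ) (seeds κ k P Δ + 1)) (aeval (Ro_q n (seeds κ k P Δ))) f
  rw [h, map_zero] at h2
  rw [show (Pool.Agent.ROQ.ext 1 (full n (lvl n κ k w P Δ) (seeds κ k P Δ))) = fun i =>
    aeval (Ro_q n (seeds κ k P Δ)) (full n (lvl n κ k w P Δ) (seeds κ k P Δ + 1) i) from
    funext fun i => (Ro_spec n _ _ i).symm]
  exact h2.symm

/-- **Theorem W2 with read-once compositions.** -/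
theorem hit_RO {κ k w P Δ R : ℕ} (f : MvPolynomial (Fin n) ℚ)
    (h1 : aeval (full n (lvl n κ k w P Δ) (seeds κ k P Δ + 1)) f ≠ 0)
    (hR : deg n κ k w P Δ * f.totalDegree ≤ R) :
    ∃ x ∈ hit n (lvl n κ k w P Δ) (seeds κ k P Δ + 1) R, eval (fun i => ((x i : ℤ) : ℚ)) f ≠ 0 := by
  classical
  have h3 : (aeval (full n (lvl n κ k w P Δ) (seeds κ k P Δ + 1)) f).totalDegree ≤ R :=
    (Helper6.totalDegree_aeval_le _ _ (fun i => totalDegree_full' n κ k w P Δ _ i) f).trans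
      (by rw [mul_comm]; exact hR)
  obtain ⟨s', hs', h4⟩ := Pool.Agent.Helper7.T1.exists_small _ h1 h3
  obtain ⟨x, hx, hxe⟩ := mem_hit (n := n) (L := lvl n κ k w P Δ) s' hs'
  refine ⟨x, hx, ?_⟩
  rw [Pool.Agent.Helper7.T3.eval_aeval'] at h4
  rwa [funext hxe]

/-- Products with arbitrary exponents: the grid depends on the degrees of the `g_ij` only. -/
theorem hit_sum {κ k w P Δ R : ℕ} {N m : ℕ}
    (g : Fin N → Fin m → MvPolynomial (Fin n) ℚ) (e : Fin N → Fin m → ℕ)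
    (hg : ∀ i j, OccFormula κ (Leaf n k w P) Δ (g i j))
    (htr : ∀ b : Finset (Fin N),
      AlgebraicIndepOn ℚ (fun i => ∏ j, g i j ^ e i j) (b : Set (Fin N)) → b.card ≤ k)
    (a : Fin N → ℚ) (h0 : ∑ i, C (a i) * ∏ j, g i j ^ e i j ≠ 0)
    (f : MvPolynomial (Fin n) ℚ) (hf : f ∣ ∑ i, C (a i) * ∏ j, g i j ^ e i j)
    (hR : 2 ^ (N + 1) * (deg n κ k w P Δ * ∑ i, ∑ j, (g i j).totalDegree) + N ≤ R) :
    ∃ x ∈ hit n (lvl n κ k w P Δ) (seeds κ k P Δ + 1) R, eval (fun i => ((x i : ℤ) : ℚ)) f ≠ 0 := by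
  classical
  have hW : W2 n κ k w P Δ (∑ i, C (a i) * ∏ j, g i j ^ e i j) :=
    ⟨N, m, g, e, hg, htr, Subalgebra.sum_mem _ fun i _ =>
      Subalgebra.mul_mem _ (Subalgebra.algebraMap_mem _ (a i)) (Algebra.subset_adjoin ⟨i, rfl⟩)⟩
  have h1 := ro_full κ k w P Δ (fun _ : Fin 1 => ∑ i, C (a i) * ∏ j, g i j ^ e i j)
    (fun _ => ⟨h0, RO.leaf hW⟩) (∑ i, C (a i) * ∏ j, g i j ^ e i j) (by rw [Fin.prod_univ_one])
  obtain ⟨f', hf'⟩ := hf
  obtain ⟨s', hs', h3⟩ := Helper6.exists_nat_seed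
    (full n (lvl n κ k w P Δ) (seeds κ k P Δ + 1))
    (fun i => totalDegree_full' n κ k w P Δ _ i) a g e le_rfl h1
  obtain ⟨x, hx, hxe⟩ := mem_hit (n := n) (L := lvl n κ k w P Δ) (R := R) s'
    (fun j => (hs' j).trans (by rw [mul_comm _ (deg n κ k w P Δ)]; exact hR))
  refine ⟨x, hx, ?_⟩
  rw [hf', map_mul] at h3
  rw [funext hxe]
  exact left_ne_zero_of_mul h3

end Pool.Agent.TWB
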